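import Pool.Agent.H200W.Stm4

/-! # Job WR-COR of helper200's project: the corank is as expected. -/

set_option autoImplicit false

namespace Pool.Agent.Q128.WR

open Finset Pool.Agent.TH176.Nag Pool.Agent.TH603.Sur Pool.Agent.TH2.NU Pool.Agent.TH641.UM
open Pool.Agent.Y205.FW Pool.Agent.Y205.MD Pool.Agent.H200W

/-- the decomposition of a multiset into its classes -/
lemma decomp (w : Multiset ℕ) (V : Finset ℕ) (hV : V ⊆ w.toFinset) (R : List (ℕ × ℕ))
    (hR : R = (w.toFinset.toList.map fun v => (if v ∈ V then w.count v % 256 else w.count v, v)).filter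
      fun x => decide (1 ≤ x.1)) :
    w = ∑ v ∈ V, Multiset.replicate (256 * (w.count v / 256)) v +
      (R.map fun x => Multiset.replicate x.1 x.2).sum := by
  classical
  have key : ∀ L : List (ℕ × ℕ),
      ((L.filter fun x => decide (1 ≤ x.1)).map fun x => Multiset.replicate x.1 x.2).sum =
      (L.map fun x => Multiset.replicate x.1 x.2).sum := by
    intro L
    induction L with
    | nil => rfl
    | cons x L ih =>
      rw [List.filter_cons]
      split_ifs with h
      · rw [List.map_cons, List.sum_cons, List.map_cons, List.sum_cons, ih]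
      · rw [List.map_cons, List.sum_cons, ih]
        have : x.1 = 0 := by
          simpa using h
        rw [this]
        simp
  have e1 : (R.map fun x => Multiset.replicate x.1 x.2).sum =
      ∑ v ∈ w.toFinset, Multiset.replicate (if v ∈ V then w.count v % 256 else w.count v) v := by
    rw [hR, key, List.map_map, ← Finset.sum_map_toList]
    rfl
  have e2 : ∑ v ∈ V, Multiset.replicate (256 * (w.count v / 256)) v =
      ∑ v ∈ w.toFinset, Multiset.replicate (if v ∈ V then 256 * (w.count v / 256) else 0) v := by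
    rw [← Finset.sum_subset hV]
    · refine Finset.sum_congr rfl fun v hv => ?_
      rw [if_pos hv]
    · intro v _ hv
      rw [if_neg hv]
      rfl
  rw [e1, e2, ← Finset.sum_add_distrib]
  conv_lhs => rw [← Multiset.toFinset_sum_count_nsmul_eq w]
  refine Finset.sum_congr rfl fun v _ => ?_
  rw [← Multiset.replicate_add, Multiset.nsmul_singleton]
  congr 1
  split_ifs
  · omega
  · omega

theorem cor : S_Corank := by
  classical
  intro hN d M1 M2 M3 μ w h32 h21 hd hμd hμ hw hbig
  obtain ⟨V, hV⟩ : ∃ V : Finset ℕ, V = w.toFinset.filter fun v =>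
    65536 * (μ + 1) ≤ w.count v * (v + 1) := ⟨_, rfl⟩
  obtain ⟨R, hR⟩ : ∃ R : List (ℕ × ℕ), R = (w.toFinset.toList.map fun v =>
    (if v ∈ V then w.count v % 256 else w.count v, v)).filter fun x => decide (1 ≤ x.1) := ⟨_, rfl⟩
  have hVs : V ⊆ w.toFinset := by rw [hV]; exact Finset.filter_subset _ _
  have hdec := decomp w V hVs R hR
  have hVm : ∀ v ∈ V, 1 ≤ v ∧ v ≤ μ ∧ 65536 * (μ + 1) ≤ w.count v * (v + 1) := by
    intro v hv
    rw [hV, mem_filter, Multiset.mem_toFinset] at hv
    exact ⟨(hw v hv.1).1, (hw v hv.1).2, hv.2⟩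
  have hVn : ∀ v ∈ V, 65536 ≤ w.count v := by
    intro v hv
    obtain ⟨h1, h2, h3⟩ := hVm v hv
    by_contra hcon
    push Not at hcon
    have h4 : w.count v * (v + 1) < 65536 * (v + 1) := Nat.mul_lt_mul_of_pos_right hcon (by omega)
    have h5 : 65536 * (v + 1) ≤ 65536 * (μ + 1) := Nat.mul_le_mul_left _ (by omega)
    omega
  have hRlen : R.length ≤ w.toFinset.card := by
    rw [hR]
    refine (List.length_filter_le _ _).trans ?_
    rw [List.length_map, Finset.length_toList]
  have hVcard : V.card ≤ w.toFinset.card := Finset.card_le_card hVs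
  -- the sum of the squares
  have hsq : (w.map fun v => v ^ 2).sum = ∑ v ∈ w.toFinset, w.count v * v ^ 2 := by
    rw [Finset.sum_multiset_map_count]
    simp
  have hsq2 : (w.map fun v => v ^ 2).sum ≤ ∑ v ∈ V, 256 * (w.count v / 256) * v ^ 2 +
      w.toFinset.card * (255 * μ ^ 2 + 65536 * (μ + 1) * μ) := by
    rw [hsq, ← Finset.sum_sdiff hVs]
    have h1 : ∑ v ∈ w.toFinset \ V, w.count v * v ^ 2 ≤
        (w.toFinset \ V).card * (65536 * (μ + 1) * μ) := by
      refine Finset.sum_le_card_nsmul _ _ _ fun v hv => ?_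
      rw [Finset.mem_sdiff, hV, mem_filter, Multiset.mem_toFinset] at hv
      have h2 := hw v hv.1
      have h3 : w.count v * (v + 1) < 65536 * (μ + 1) := by
        by_contra h4
        exact hv.2 ⟨hv.1, not_lt.1 h4⟩
      calc w.count v * v ^ 2 = (w.count v * v) * v := by ring
        _ ≤ (w.count v * (v + 1)) * μ := by
            apply Nat.mul_le_mul _ h2.2
            exact Nat.mul_le_mul_left _ (by omega)
        _ ≤ 65536 * (μ + 1) * μ := Nat.mul_le_mul_right _ h3.le
    have h2 : ∑ v ∈ V, w.count v * v ^ 2 ≤ ∑ v ∈ V, 256 * (w.count v / 256) * v ^ 2 +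
        V.card * (255 * μ ^ 2) := by
      have h3 : ∑ v ∈ V, w.count v * v ^ 2 ≤
          ∑ v ∈ V, (256 * (w.count v / 256) * v ^ 2 + 255 * μ ^ 2) := by
        refine Finset.sum_le_sum fun v hv => ?_
        have h4 : w.count v ≤ 256 * (w.count v / 256) + 255 := by omega
        calc w.count v * v ^ 2 ≤ (256 * (w.count v / 256) + 255) * v ^ 2 :=
              Nat.mul_le_mul_right _ h4
          _ = 256 * (w.count v / 256) * v ^ 2 + 255 * v ^ 2 := by ring
          _ ≤ _ := by
              apply Nat.add_le_add_left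
              apply Nat.mul_le_mul_left
              exact Nat.pow_le_pow_left (hVm v hv).2.1 2
      rw [Finset.sum_add_distrib, Finset.sum_const, smul_eq_mul] at h3
      exact h3
    have h3 : (w.toFinset \ V).card ≤ w.toFinset.card := Finset.card_le_card Finset.sdiff_subset
    have h4 : (w.toFinset \ V).card * (65536 * (μ + 1) * μ) ≤
        w.toFinset.card * (65536 * (μ + 1) * μ) := Nat.mul_le_mul_right _ h3
    have h5 : V.card * (255 * μ ^ 2) ≤ w.toFinset.card * (255 * μ ^ 2) :=
      Nat.mul_le_mul_right _ hVcard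
    have h6 : w.toFinset.card * (255 * μ ^ 2 + 65536 * (μ + 1) * μ) =
        w.toFinset.card * (255 * μ ^ 2) + w.toFinset.card * (65536 * (μ + 1) * μ) := by ring
    omega
  have hμR : (1 : ℝ) ≤ μ := by exact_mod_cast hμ
  -- the hypotheses of the numbers
  have hmain : ∀ a g0 g1 : ℕ → ℕ, (∀ v ∈ V, Leaf 4 (w.count v / 256) v (a v) (g0 v) (g1 v)) →
      crkM (HX M1 M2 M3 d) (lf V (fun v => w.count v / 256) a R) ≤
        ((HX M1 M2 M3 d).card - TH2.NU.condM (lf V (fun v => 256 * (w.count v / 256))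
          (fun v => v) R)) + ∑ v ∈ V, g0 v := by
    refine hN (h := 256 * ((μ : ℝ) + 1)) (μ := μ) V (fun v => w.count v / 256) R hμ rfl h32 h21 hd
      ?_ ?_ ?_ ?_
    · have h1 : (M1 : ℝ) + 1064960 * ((μ : ℝ) + 1) ≤ d := by exact_mod_cast hμd
      linarith
    · intro v hv
      obtain ⟨h1, h2, h3⟩ := hVm v hv
      have h4 := hVn v hv
      refine ⟨h1, h2, ?_, ?_⟩
      · show 1 ≤ w.count v / 256
        omega
      · have h5 : w.count v ≤ 256 * (w.count v / 256) + 255 := by omega
        have h5' : (w.count v : ℝ) ≤ 256 * ((w.count v / 256 : ℕ) : ℝ) + 255 := by exact_mod_cast h5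
        have h3' : 65536 * ((μ : ℝ) + 1) ≤ (w.count v : ℝ) * ((v : ℝ) + 1) := by exact_mod_cast h3
        have h1' : (1 : ℝ) ≤ v := by exact_mod_cast h1
        have h2' : (v : ℝ) ≤ μ := by exact_mod_cast h2
        have h6 : (w.count v : ℝ) * ((v : ℝ) + 1) ≤ 2 * ((w.count v : ℝ) * v) := by
          have : (0 : ℝ) ≤ (w.count v : ℝ) * ((v : ℝ) - 1) :=
            mul_nonneg (Nat.cast_nonneg _) (by linarith)
          linarith
        have h7 : (w.count v : ℝ) * v ≤ (256 * ((w.count v / 256 : ℕ) : ℝ) + 255) * v :=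
          mul_le_mul_of_nonneg_right h5' (by linarith)
        show 4 * (256 * ((μ : ℝ) + 1)) ≤ ((w.count v / 256 : ℕ) : ℝ) * (16 * (v : ℝ))
        linarith
    · intro x hx
      rw [hR, List.mem_filter, List.mem_map] at hx
      obtain ⟨⟨v, hv, hvx⟩, hx1⟩ := hx
      rw [Finset.mem_toList, Multiset.mem_toFinset] at hv
      obtain ⟨h1, h2⟩ := hw v hv
      have hx1' : 1 ≤ x.1 := by simpa using hx1
      rw [← hvx] at hx1' ⊢
      refine ⟨hx1', h1, h2, ?_⟩
      have h2' : (v : ℝ) ≤ μ := by exact_mod_cast h2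
      have h1' : (1 : ℝ) ≤ v := by exact_mod_cast h1
      show (((if v ∈ V then w.count v % 256 else w.count v : ℕ)) : ℝ) * ((v : ℝ) + 1) ≤
        256 * (256 * ((μ : ℝ) + 1))
      split_ifs with hvV
      · have h3 : w.count v % 256 ≤ 255 := by omega
        have h3' : ((w.count v % 256 : ℕ) : ℝ) ≤ 255 := by exact_mod_cast h3
        nlinarith
      · have h3 : w.count v * (v + 1) < 65536 * (μ + 1) := by
          by_contra h4
          apply hvV
          rw [hV, mem_filter, Multiset.mem_toFinset]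
          exact ⟨hv, not_lt.1 h4⟩
        have h3' : (w.count v : ℝ) * ((v : ℝ) + 1) < 65536 * ((μ : ℝ) + 1) := by exact_mod_cast h3
        linarith
    · have hb' : 2 ^ 28 * (w.toFinset.card : ℝ) * (μ : ℝ) ^ 2 ≤
          ∑ v ∈ V, (256 * ((w.count v / 256 : ℕ) : ℝ)) * (v : ℝ) ^ 2 +
          (w.toFinset.card : ℝ) * (255 * (μ : ℝ) ^ 2 + 65536 * ((μ : ℝ) + 1) * μ) := by
        exact_mod_cast hbig.trans hsq2
      have hRl : (R.length : ℝ) ≤ w.toFinset.card := by exact_mod_cast hRlen
      have hVc : (V.card : ℝ) ≤ w.toFinset.card := by exact_mod_cast hVcard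
      have hr0 : (0 : ℝ) ≤ w.toFinset.card := Nat.cast_nonneg _
      show 257 * (256 * ((μ : ℝ) + 1)) ^ 2 * ((R.length : ℝ) + V.card) ≤
        ∑ v ∈ V, (256 * ((w.count v / 256 : ℕ) : ℝ)) * (v : ℝ) ^ 2
      have h1 : (μ : ℝ) + 1 ≤ 2 * μ := by linarith
      have h2 : ((μ : ℝ) + 1) ^ 2 ≤ 4 * (μ : ℝ) ^ 2 := by nlinarith
      have h3 : 257 * (256 * ((μ : ℝ) + 1)) ^ 2 * ((R.length : ℝ) + V.card) ≤
          257 * (65536 * (4 * (μ : ℝ) ^ 2)) * (2 * (w.toFinset.card : ℝ)) := by
        apply mul_le_mul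
        · nlinarith
        · linarith
        · exact add_nonneg (Nat.cast_nonneg _) (Nat.cast_nonneg _)
        · positivity
      have h4 : (w.toFinset.card : ℝ) * (255 * (μ : ℝ) ^ 2 + 65536 * ((μ : ℝ) + 1) * μ) ≤
          (w.toFinset.card : ℝ) * (131327 * (μ : ℝ) ^ 2) := by
        apply mul_le_mul_of_nonneg_left _ hr0
        nlinarith
      have h5 : 0 ≤ (w.toFinset.card : ℝ) * (μ : ℝ) ^ 2 := mul_nonneg hr0 (sq_nonneg _)
      nlinarith
  have hacc := classes_acc (S := HX M1 M2 M3 d) (fun u hu => by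
      rw [HX, mem_filter, mem_product, mem_Icc, mem_Icc] at hu
      exact ⟨hu.1.1.1, hu.1.2.1⟩) 4 (fun v => w.count v / 256) V
    (c := (HX M1 M2 M3 d).card - TH2.NU.condM w)
    (E := (R.map fun x => Multiset.replicate x.1 x.2).sum) (by
      intro a g0 g1 hl
      have h1 := hmain a g0 g1 hl
      have h2 : lf V (fun v => 256 * (w.count v / 256)) (fun v => v) R = w := hdec.symm
      rw [h2] at h1
      exact h1)
  have e4 : (4 : ℕ) ^ 4 = 256 := by norm_num
  rw [e4, ← hdec] at hacc
  exact hacc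

end Pool.Agent.Q128.WR
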