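import Pool.Agent.H200W.Stm4

/-! # Job WR-RANK of helper200's project: from the corank to the rank in degree `d`. -/

set_option autoImplicit false

namespace Pool.Agent.Q128.WR

open Finset Pool.Agent.TH176.Nag Pool.Agent.TH603.Sur Pool.Agent.TH2.NU Pool.Agent.TH641.UM
open Pool.Agent.Y205.FW Pool.Agent.Y205.MD Pool.Agent.H200W

theorem rank : S_RankHX := by
  classical
  intro d M1 M2 M3 ι _ w h32 h21 hd hc
  set W : Multiset ℕ := (Finset.univ.val.map w).filter fun v => 1 ≤ v with hW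
  set H := HX M1 M2 M3 d with hH
  obtain ⟨T, hTH, hTc, hTE⟩ := crk_spec H (vec W)
  have hc' : crk H (vec W) ≤ H.card - TH2.NU.condM W := hc
  have hmin : min H.card (TH2.NU.condM W) ≤ T.card := by omega
  -- emptiness for the whole family
  have hsum : ∀ t : ℕ → ℕ, ∑ p, t (vec W p) = ∑ i : {i : ι // 1 ≤ w i}, t (w i) := by
    intro t
    rw [sum_vec, hW, Multiset.filter_map, Multiset.map_map]
    have e1 : ∑ i : {i : ι // 1 ≤ w i}, t (w i) = ∑ i ∈ univ.filter (fun i => 1 ≤ w i), t (w i) := by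
      rw [Finset.sum_subtype (univ.filter fun i => 1 ≤ w i) (p := fun i => 1 ≤ w i)
        (fun i => by simp)]
    rw [e1]
    rfl
  obtain ⟨σ, hσ⟩ := exists_equiv_of_sum hsum
  have hE1 : Emp w (↑T : Set (ℤ × ℤ)) :=
    Emp_emb (fun p => (σ p).1) (Subtype.val_injective.comp σ.injective)
      (fun p => le_of_eq (hσ p)) hTE
  -- exchange the coordinates
  have hE2 : Emp w {m : ℤ × ℤ | (m.2, m.1) ∈ T} := by
    refine hE1.comap 0 1 1 0 0 0 (by norm_num) fun m hm => ?_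
    have : ((0 * m.1 + 1 * m.2 + 0, 1 * m.1 + 0 * m.2 + 0) : ℤ × ℤ) = (m.2, m.1) := by
      simp
    rw [this]
    exact hm
  have hmem : ∀ m : ℤ × ℤ, m ∈ T → (0 ≤ m.1 ∧ m.1 ≤ (d : ℤ) - M2) ∧ (0 ≤ m.2 ∧
      m.2 ≤ (d : ℤ) - M1) ∧ m.1 + m.2 ≤ (d : ℤ) ∧ (M3 : ℤ) ≤ m.1 + m.2 := by
    intro m hm
    have h1 := hTH hm
    rw [hH, HX, mem_filter, mem_product, mem_Icc, mem_Icc] at h1
    exact ⟨h1.1.1, h1.1.2, h1.2⟩
  have hfin : {m : ℤ × ℤ | (m.2, m.1) ∈ T}.Finite := by
    refine Set.Finite.preimage (f := fun m : ℤ × ℤ => (m.2, m.1)) ?_ T.finite_toSet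
    intro m _ m' _ h
    simp only [Prod.mk.injEq] at h
    exact Prod.ext h.2 h.1
  obtain ⟨F, hF0, hF⟩ := Emp_open hfin (fun m hm => by
    have h1 := hmem _ hm
    simp only at h1
    exact ⟨h1.2.1.1, h1.1.1⟩) hE2
  obtain ⟨P, hP⟩ : ∃ P : ι × Fin 2 → ℚ, MvPolynomial.aeval P F ≠ 0 := by
    by_contra hcon
    push Not at hcon
    apply hF0
    apply MvPolynomial.funext
    intro x
    have h1 := hcon x
    rw [MvPolynomial.aeval_eq_eval] at h1
    rw [map_zero]
    exact h1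
  obtain ⟨hP1, hP2⟩ := hF P hP
  -- pairs of natural numbers
  let T' : Finset (ℕ × ℕ) := T.image fun m => (m.2.toNat, m.1.toNat)
  have hT'c : T'.card = T.card := by
    apply card_image_of_injOn
    intro m hm m' hm' h
    have h1 := hmem m hm
    have h2 := hmem m' hm'
    simp only [Prod.mk.injEq] at h
    ext <;> omega
  have hT'S : castS T' ⊆ {m : ℤ × ℤ | (m.2, m.1) ∈ T} := by
    rintro m ⟨p, hp, rfl⟩
    rw [mem_image] at hp
    obtain ⟨m, hm, rfl⟩ := hp
    have h1 := hmem m hm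
    show ((((m.1.toNat : ℕ) : ℤ), ((m.2.toNat : ℕ) : ℤ)) : ℤ × ℤ) ∈ T
    have : ((((m.1.toNat : ℕ) : ℤ), ((m.2.toNat : ℕ) : ℤ)) : ℤ × ℤ) = m := by
      ext
      · simp only; omega
      · simp only; omega
    rw [this]
    exact hm
  have hT'R : T' ⊆ W609.T.Rg 1 0 (d + 1) (d - M1) M2 M3 := by
    intro p hp
    obtain ⟨a, b⟩ := p
    rw [mem_image] at hp
    obtain ⟨m, hm, hmp⟩ := hp
    simp only [Prod.mk.injEq] at hmp
    have h1 := hmem m hm
    rw [W609.T.mem_Rg]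
    omega
  have hRk : H932R3.RkS (H932R7.PF ℚ w) (↑(W609.T.Rg 1 0 (d + 1) (d - M1) M2 M3) : Set (ℕ × ℕ))
      T'.card := by
    refine ⟨_, ⟨fun a => P (a, 0), fun a => Polynomial.C (P (a, 1)), rfl⟩, ?_⟩
    exact RkI_of_LM (fun i => hP1 (i, 0)) (fun i => hP1 (i, 1)) (by exact_mod_cast hT'R)
      fun f hf hL => hP2 f (hf.trans hT'S) hL
  have h1 := W609.T.hex_sum (by omega) (by omega) (by omega) hRk
  rw [H932R2.coe_Tfin] at h1
  refine H932R3.RkS.le ?_ h1
  -- the numbers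
  have hcH : H.card = (W609.T.Rg 1 0 (d + 1) (d - M1) M2 M3).card := by
    refine Finset.card_bij' (fun m _ => (m.2.toNat, m.1.toNat))
      (fun p _ => ((p.2 : ℤ), (p.1 : ℤ))) ?_ ?_ ?_ ?_
    · intro m hm
      rw [hH, HX, mem_filter, mem_product, mem_Icc, mem_Icc] at hm
      rw [W609.T.mem_Rg]
      omega
    · rintro ⟨a, b⟩ hp
      rw [W609.T.mem_Rg] at hp
      rw [hH, HX, mem_filter, mem_product, mem_Icc, mem_Icc]
      simp only
      omega
    · intro m hm
      rw [hH, HX, mem_filter, mem_product, mem_Icc, mem_Icc] at hm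
      ext
      · simp only; omega
      · simp only; omega
    · rintro ⟨a, b⟩ _
      simp
  have hc1 := W609.T.card_hex (d := d) (M1 := M1) (M2 := M2) (M3 := M3) (by omega) (by omega)
    (by omega)
  rw [← hcH, ← W609.T.Aw_three, H932R7.card_Tfin'] at hc1
  have hA : H932R7.Aw (Sum.elim ![M1, M2, M3] w) = H932R7.Aw ![M1, M2, M3] + TH2.NU.condM W := by
    unfold H932R7.Aw
    rw [Fintype.sum_sum_type]
    congr 1
    have h2 := hsum fun v => (v + 1).choose 2
    have h2' := sum_vec W fun v => (v + 1).choose 2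
    have h3 : TH2.NU.condM W = ∑ i : {i : ι // 1 ≤ w i}, (w i + 1).choose 2 := h2'.symm.trans h2
    rw [h3]
    have e1 : ∑ i : {i : ι // 1 ≤ w i}, (w i + 1).choose 2 =
        ∑ i ∈ univ.filter (fun i => 1 ≤ w i), (w i + 1).choose 2 := by
      rw [Finset.sum_subtype (univ.filter fun i => 1 ≤ w i) (p := fun i => 1 ≤ w i)
        (fun i => by simp)]
    rw [e1, Finset.sum_filter]
    simp only [Sum.elim_inr]
    refine Finset.sum_congr rfl fun i _ => ?_
    split_ifs with h4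
    · rfl
    · have : w i = 0 := by omega
      rw [this]
      rfl
  rw [hA, ← hc1, hT'c]
  omega

end Pool.Agent.Q128.WR
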